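import Mathlib

section
/-!
Signs at infinity of real polynomials, alternating chains of coefficients, and the
Budan-Fourier monotonicity of the number of sign blocks under a positive Taylor shift
over the ring `ℝ[n]` (ordered by the sign of the leading coefficient).
-/
set_option autoImplicit false

open Polynomial

namespace Pool.Agent.MPd26.H43

/-- The sign at infinity of a real polynomial is `σ`. -/
def Sg (σ : ℤˣ) (q : ℝ[X]) : Prop := 0 < ((σ : ℤ) : ℝ) * q.leadingCoeff

lemma Sg_neg_iff {σ : ℤˣ} {q : ℝ[X]} : Sg (-σ) q ↔ Sg σ (-q) := by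
  unfold Sg; simp

lemma Sg.neg {σ : ℤˣ} {q : ℝ[X]} (h : Sg σ q) : Sg (-σ) (-q) := by
  rw [Sg_neg_iff, neg_neg]; exact h

lemma Sg.ne_zero {σ : ℤˣ} {q : ℝ[X]} (h : Sg σ q) : q ≠ 0 := by
  rintro rfl; simp [Sg] at h

lemma Sg_one_iff {q : ℝ[X]} : Sg 1 q ↔ 0 < q.leadingCoeff := by simp [Sg]

lemma Sg_neg_one_iff {q : ℝ[X]} : Sg (-1) q ↔ q.leadingCoeff < 0 := by simp [Sg]

lemma Sg_tri (σ : ℤˣ) (q : ℝ[X]) : q = 0 ∨ Sg σ q ∨ Sg (-σ) q := by
  by_cases h : q = 0
  · exact Or.inl h
  · right
    have h' : q.leadingCoeff ≠ 0 := leadingCoeff_ne_zero.2 h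
    rcases Int.units_eq_one_or σ with rfl | rfl
    · rw [Sg_one_iff, Sg_neg_one_iff]
      rcases lt_or_gt_of_ne h' with h1 | h1
      · exact Or.inr h1
      · exact Or.inl h1
    · rw [neg_neg, Sg_one_iff, Sg_neg_one_iff]
      rcases lt_or_gt_of_ne h' with h1 | h1
      · exact Or.inl h1
      · exact Or.inr h1

lemma Sg.not_neg {σ : ℤˣ} {q : ℝ[X]} (h : Sg σ q) : ¬ Sg (-σ) q := by
  unfold Sg at *
  push_cast
  intro h'
  linarith

lemma Sg.not_of_neg {σ : ℤˣ} {q : ℝ[X]} (h : Sg (-σ) q) : ¬ Sg σ q :=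
  fun h' => h'.not_neg h

lemma Sg.unique {σ τ : ℤˣ} {q : ℝ[X]} (h : Sg σ q) (h' : Sg τ q) : σ = τ := by
  rcases Int.units_eq_one_or σ with rfl | rfl <;> rcases Int.units_eq_one_or τ with rfl | rfl
  · rfl
  · exact absurd h' h.not_neg
  · exact absurd h h'.not_neg
  · rfl

lemma Sg.of_leadingCoeff {σ : ℤˣ} {a b : ℝ[X]} (h : Sg σ a)
    (hl : b.leadingCoeff = a.leadingCoeff) : Sg σ b := by
  unfold Sg at *; rw [hl]; exact h

lemma Sg.add {σ : ℤˣ} {a b : ℝ[X]} (ha : Sg σ a) (hb : Sg σ b) : Sg σ (a + b) := by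
  rcases lt_trichotomy a.degree b.degree with h | h | h
  · exact hb.of_leadingCoeff (leadingCoeff_add_of_degree_lt h)
  · unfold Sg at *
    have hs : 0 < ((σ : ℤ) : ℝ) * (a.leadingCoeff + b.leadingCoeff) := by
      rw [mul_add]; exact add_pos ha hb
    have hne : a.leadingCoeff + b.leadingCoeff ≠ 0 := by
      intro h0; rw [h0] at hs; simp at hs
    rw [leadingCoeff_add_of_degree_eq h hne]
    exact hs
  · exact ha.of_leadingCoeff (leadingCoeff_add_of_degree_lt' h)

lemma Sg.mul_one {σ : ℤˣ} {a c : ℝ[X]} (hc : Sg 1 c) (ha : Sg σ a) : Sg σ (c * a) := by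
  rw [Sg_one_iff] at hc
  unfold Sg at *
  rw [leadingCoeff_mul]
  have : ((σ : ℤ) : ℝ) * (c.leadingCoeff * a.leadingCoeff)
    = c.leadingCoeff * (((σ : ℤ) : ℝ) * a.leadingCoeff) := by ring
  rw [this]
  exact mul_pos hc ha

lemma Sg.split {σ : ℤˣ} {a b c : ℝ[X]} (hc : Sg 1 c) (h : Sg σ (a + c * b)) :
    Sg σ a ∨ Sg σ b := by
  rcases Sg_tri σ a with ha | ha | ha
  · right
    rw [ha, zero_add] at h
    rcases Sg_tri σ b with hb | hb | hb
    · rw [hb, mul_zero] at h; exact absurd rfl h.ne_zero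
    · exact hb
    · exact absurd h (Sg.mul_one hc hb).not_of_neg
  · exact Or.inl ha
  · right
    rcases Sg_tri σ b with hb | hb | hb
    · rw [hb, mul_zero, add_zero] at h; exact absurd h ha.not_of_neg
    · exact hb
    · exact absurd h (ha.add (Sg.mul_one hc hb)).not_of_neg

/-- Adding a constant does not change the sign of a nonconstant polynomial. -/
lemma Sg_add_const {σ : ℤˣ} {a : ℝ[X]} (r : ℝ) (ha : 0 < a.natDegree) :
    Sg σ (a + C r) ↔ Sg σ a := by
  have : (a + C r).leadingCoeff = a.leadingCoeff := by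
    apply leadingCoeff_add_of_degree_lt'
    refine lt_of_le_of_lt degree_C_le ?_
    exact natDegree_pos_iff_degree_pos.1 ha
  unfold Sg; rw [this]

/-- There is an alternating chain of length `m` in the sequence `a`, whose first sign is `σ`,
with indices `≥ k`. -/
def Alt (a : ℕ → ℝ[X]) : ℕ → ℤˣ → ℕ → Prop
  | 0, _, _ => True
  | m + 1, σ, k => ∃ j, k ≤ j ∧ Sg σ (a j) ∧ Alt a m (-σ) (j + 1)

lemma Alt.mono_start {a : ℕ → ℝ[X]} {m : ℕ} {σ : ℤˣ} {k k' : ℕ} (hk : k' ≤ k)
    (h : Alt a m σ k) : Alt a m σ k' := by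
  cases m with
  | zero => trivial
  | succ m =>
    obtain ⟨j, hj, h1, h2⟩ := h
    exact ⟨j, hk.trans hj, h1, h2⟩

lemma Alt.mono_len {a : ℕ → ℝ[X]} {m m' : ℕ} {σ : ℤˣ} {k : ℕ} (hm : m' ≤ m)
    (h : Alt a m σ k) : Alt a m' σ k := by
  induction m generalizing m' σ k with
  | zero => obtain rfl : m' = 0 := by omega
            trivial
  | succ m ih =>
    cases m' with
    | zero => trivial
    | succ m' =>
      obtain ⟨j, hj, h1, h2⟩ := h
      exact ⟨j, hj, h1, ih (by omega) h2⟩

lemma Alt.skip {a : ℕ → ℝ[X]} {m : ℕ} {σ : ℤˣ} {k : ℕ} (h : Alt a m (-σ) k)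
    (hs : Sg σ (a k)) : Alt a m (-σ) (k + 1) := by
  cases m with
  | zero => trivial
  | succ m =>
    obtain ⟨j, hj, h1, h2⟩ := h
    have hne : j ≠ k := by
      rintro rfl
      exact hs.not_neg h1
    exact ⟨j, by omega, h1, h2⟩

lemma Alt.congr {a b : ℕ → ℝ[X]} (h : ∀ j, a j = b j) {m : ℕ} {σ : ℤˣ} {k : ℕ} :
    Alt a m σ k ↔ Alt b m σ k := by
  have : a = b := funext h
  rw [this]

lemma Alt.neg {a : ℕ → ℝ[X]} {m : ℕ} {σ : ℤˣ} {k : ℕ} (h : Alt a m σ k) :
    Alt (fun j => - a j) m (-σ) k := by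
  induction m generalizing σ k with
  | zero => trivial
  | succ m ih =>
    obtain ⟨j, hj, h1, h2⟩ := h
    exact ⟨j, hj, h1.neg, ih h2⟩

/-- simultaneous elementary operation -/
lemma Alt.elementary {a b : ℕ → ℝ[X]}
    (hab : ∀ j σ, Sg σ (b j) → Sg σ (a j) ∨ Sg σ (a (j + 1)))
    {m : ℕ} {σ : ℤˣ} {k : ℕ} (h : Alt b m σ k) : Alt a m σ k := by
  induction m generalizing σ k with
  | zero => trivial
  | succ m ih =>
    obtain ⟨j, hj, h1, h2⟩ := h
    rcases hab j σ h1 with h3 | h3
    · exact ⟨j, hj, h3, ih h2⟩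
    · exact ⟨j + 1, by omega, h3, (ih h2).skip h3⟩

lemma Alt.shift {a b : ℕ → ℝ[X]} (hab : ∀ j, a (j + 1) = b j) {m : ℕ} {σ : ℤˣ} {k : ℕ} :
    Alt a m σ (k + 1) ↔ Alt b m σ k := by
  induction m generalizing σ k with
  | zero => exact Iff.rfl
  | succ m ih =>
    constructor
    · rintro ⟨j, hj, h1, h2⟩
      obtain ⟨j', rfl⟩ : ∃ j', j = j' + 1 := ⟨j - 1, by omega⟩
      rw [hab] at h1
      exact ⟨j', by omega, h1, ih.1 h2⟩
    · rintro ⟨j, hj, h1, h2⟩
      refine ⟨j + 1, by omega, ?_, ih.2 h2⟩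
      rw [hab]; exact h1

lemma Alt.cons {a a' b b' : ℕ → ℝ[X]} (ha : ∀ j, a (j + 1) = b j) (ha' : ∀ j, a' (j + 1) = b' j)
    (h0 : a 0 = a' 0) (hbb : ∀ m σ, Alt b m σ 0 → Alt b' m σ 0) {m : ℕ} {σ : ℤˣ}
    (h : Alt a m σ 0) : Alt a' m σ 0 := by
  cases m with
  | zero => trivial
  | succ m =>
    obtain ⟨j, hj, h1, h2⟩ := h
    rcases Nat.eq_zero_or_pos j with rfl | hj0
    · refine ⟨0, le_rfl, h0 ▸ h1, ?_⟩
      rw [Nat.zero_add] at h2 ⊢
      have := (Alt.shift (k := 0) ha).1 h2
      exact (Alt.shift (k := 0) ha').2 (hbb _ _ this)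
    · have h3 : Alt a (m + 1) σ 1 := ⟨j, hj0, h1, h2⟩
      have h4 := (Alt.shift (k := 0) ha).1 h3
      exact ((Alt.shift (k := 0) ha').2 (hbb _ _ h4)).mono_start (Nat.zero_le _)

/-- Budan-Fourier monotonicity. -/
theorem budan (c : ℝ[X]) (hc : Sg 1 c) (P : ℝ[X][X]) (m : ℕ) (σ : ℤˣ)
    (h : Alt (taylor c P).coeff m σ 0) : Alt P.coeff m σ 0 := by
  obtain ⟨n, hn⟩ : ∃ n, P.natDegree ≤ n := ⟨_, le_rfl⟩
  induction n generalizing P m σ with
  | zero =>
    rw [eq_C_of_natDegree_le_zero hn, taylor_C] at h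
    rw [eq_C_of_natDegree_le_zero hn]
    exact h
  | succ n ih =>
    set Q := P.divX with hQ
    set B := taylor c Q with hB
    have hP : X * Q + C (P.coeff 0) = P := X_mul_divX_add P
    have hdeg : Q.natDegree ≤ n := by
      rw [hQ, natDegree_divX_eq_natDegree_tsub_one]; omega
    have hT : taylor c P = (X * B + C (P.coeff 0)) + C c * B := by
      conv_lhs => rw [← hP]
      rw [map_add, taylor_mul, taylor_X, taylor_C, ← hB]
      ring
    have h1 : Alt (X * B + C (P.coeff 0)).coeff m σ 0 := by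
      refine Alt.elementary ?_ h
      intro j τ hj
      rw [hT, coeff_add, coeff_C_mul] at hj
      have h2 : (X * B + C (P.coeff 0)).coeff (j + 1) = B.coeff j := by
        rw [coeff_add, coeff_X_mul, coeff_C_succ, add_zero]
      rw [h2]
      exact Sg.split hc hj
    refine Alt.cons (a := (X * B + C (P.coeff 0)).coeff) (b := B.coeff) (b' := Q.coeff)
      ?_ ?_ ?_ ?_ h1
    · intro j
      rw [coeff_add, coeff_X_mul, coeff_C_succ, add_zero]
    · intro j
      rw [← coeff_divX]
    · simp
    · intro m σ h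
      exact ih Q m σ h hdeg

/-- If `a 0, …, a M` are nonzero, then the numbers of blocks of `a` and of `(-1)^j a` add up to
at least `M + 2`. -/
theorem count_blocks (a : ℕ → ℝ[X]) (M : ℕ) (h : ∀ j ≤ M, a j ≠ 0) :
    ∃ m₁ m₂ σ₁ σ₂, m₁ + m₂ = M + 2 ∧ Alt a m₁ σ₁ 0 ∧ Alt (fun j => (-1) ^ j * a j) m₂ σ₂ 0 := by
  have key : ∀ i ≤ M, ∃ m₁ m₂ σ₁ σ₂, m₁ + m₂ = i ∧ Sg σ₁ (a (M - i)) ∧
      Sg σ₂ ((-1) ^ (M - i) * a (M - i)) ∧
      Alt a (m₁ + 1) σ₁ (M - i) ∧ Alt (fun j => (-1) ^ j * a j) (m₂ + 1) σ₂ (M - i) := by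
    intro i
    induction i with
    | zero =>
      intro _
      have hM := h M le_rfl
      have hM' : (-1) ^ M * a M ≠ 0 := mul_ne_zero (pow_ne_zero _ (by simp)) hM
      obtain ⟨σ₁, h1⟩ : ∃ σ, Sg σ (a M) := by
        rcases Sg_tri 1 (a M) with h | h | h
        · exact absurd h hM
        · exact ⟨_, h⟩
        · exact ⟨_, h⟩
      obtain ⟨σ₂, h2⟩ : ∃ σ, Sg σ ((-1) ^ M * a M) := by
        rcases Sg_tri 1 ((-1) ^ M * a M) with h | h | h
        · exact absurd h hM'
        · exact ⟨_, h⟩
        · exact ⟨_, h⟩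
      exact ⟨0, 0, σ₁, σ₂, rfl, by simpa using h1, by simpa using h2,
        ⟨M, by omega, h1, trivial⟩, ⟨M, by omega, h2, trivial⟩⟩
    | succ i ih =>
      intro hi
      obtain ⟨m₁, m₂, σ₁, σ₂, hm, hs1, hs2, hA, hB⟩ := ih (by omega)
      have hk : M - i = (M - (i + 1)) + 1 := by omega
      set k := M - (i + 1) with hkdef
      rw [hk] at hs1 hs2 hA hB
      have hak := h k (by omega)
      -- relation between the two signs at k+1
      rcases Sg_tri σ₁ (a k) with h0 | h0 | h0
      · exact absurd h0 hak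
      · -- same sign in a, opposite in the twisted sequence
        have hrel : Sg (-σ₂) ((-1) ^ k * a k) := by
          rcases Nat.even_or_odd k with hk' | hk'
          · rw [hk'.neg_one_pow, one_mul]
            rw [hk'.add_one.neg_one_pow, neg_one_mul] at hs2
            have : σ₂ = -σ₁ := hs2.unique hs1.neg
            rw [this, neg_neg]; exact h0
          · rw [hk'.neg_one_pow, neg_one_mul]
            rw [hk'.add_one.neg_one_pow, one_mul] at hs2
            have : σ₂ = σ₁ := hs2.unique hs1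
            rw [this]; exact h0.neg
        refine ⟨m₁, m₂ + 1, σ₁, -σ₂, by omega, h0, hrel, hA.mono_start (by omega), ?_⟩
        exact ⟨k, le_rfl, hrel, by rw [neg_neg]; exact hB⟩
      · have hrel : Sg σ₂ ((-1) ^ k * a k) := by
          rcases Nat.even_or_odd k with hk' | hk'
          · rw [hk'.neg_one_pow, one_mul]
            rw [hk'.add_one.neg_one_pow, neg_one_mul] at hs2
            have : σ₂ = -σ₁ := hs2.unique hs1.neg
            rw [this]; exact h0
          · rw [hk'.neg_one_pow, neg_one_mul]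
            rw [hk'.add_one.neg_one_pow, one_mul] at hs2
            have : σ₂ = σ₁ := hs2.unique hs1
            rw [this]
            have := h0.neg
            rwa [neg_neg] at this
        refine ⟨m₁ + 1, m₂, -σ₁, σ₂, by omega, h0, hrel, ?_, hB.mono_start (by omega)⟩
        exact ⟨k, le_rfl, h0, by rw [neg_neg]; exact hA⟩
  obtain ⟨m₁, m₂, σ₁, σ₂, hm, -, -, hA, hB⟩ := key M le_rfl
  rw [Nat.sub_self] at hA hB
  exact ⟨m₁ + 1, m₂ + 1, σ₁, σ₂, by omega, hA, hB⟩

end Pool.Agent.MPd26.H43
end

section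
/-!
The bound on the degrees in a relation `∑ F_k(X - p_k(n)) = 0` with pairwise differences of the
`p_k` nonconstant: every nonzero `F_k` has degree at most `N - 2`, where `N` is the number of terms.
-/
set_option autoImplicit false

open Polynomial Filter

namespace Pool.Agent.MPd26.H43

lemma ev_pos {A : ℝ[X]} (h : 0 < A.leadingCoeff) : ∀ᶠ s : ℝ in atTop, 0 < A.eval s := by
  rcases Nat.eq_zero_or_pos A.natDegree with h0 | h0
  · rw [eq_C_of_natDegree_eq_zero h0] at h ⊢
    simp only [leadingCoeff_C] at h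
    simp [h]
  · have := A.tendsto_atTop_of_leadingCoeff_nonneg (natDegree_pos_iff_degree_pos.1 h0) h.le
    exact this.eventually_gt_atTop 0

lemma ev_ne {A : ℝ[X]} (h : A ≠ 0) : ∀ᶠ s : ℝ in atTop, A.eval s ≠ 0 := by
  rcases lt_or_gt_of_ne (leadingCoeff_ne_zero.2 h) with h1 | h1
  · have h2 : 0 < (-A).leadingCoeff := by simpa using h1
    filter_upwards [ev_pos h2] with s hs
    simp at hs; exact hs.ne
  · filter_upwards [ev_pos h1] with s hs
    exact hs.ne'

lemma Sg.ev {σ : ℤˣ} {A : ℝ[X]} (h : Sg σ A) :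
    ∀ᶠ s : ℝ in atTop, 0 < ((σ : ℤ) : ℝ) * A.eval s := by
  rcases Int.units_eq_one_or σ with rfl | rfl
  · rw [Sg_one_iff] at h
    filter_upwards [ev_pos h] with s hs
    simpa using hs
  · have h2 : 0 < (-A).leadingCoeff := by simpa [Sg] using h
    filter_upwards [ev_pos h2] with s hs
    simpa using hs

/-- the coefficientwise `e`-th coefficient of a polynomial over `ℝ[n]` -/
noncomputable def cf (e : ℕ) (P : ℝ[X][X]) : ℝ[X] := ∑ i ∈ P.support, monomial i ((P.coeff i).coeff e)

lemma cf_coeff (e : ℕ) (P : ℝ[X][X]) (i : ℕ) : (cf e P).coeff i = (P.coeff i).coeff e := by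
  unfold cf
  rw [finsetSum_coeff]
  simp only [coeff_monomial]
  rw [Finset.sum_ite_eq' ]
  split_ifs with h
  · rfl
  · rw [notMem_support_iff.1 h, coeff_zero]

lemma cf_taylor (e : ℕ) (P : ℝ[X][X]) (s : ℝ) (j : ℕ) :
    ((taylor (C s) P).coeff j).coeff e = (taylor s (cf e P)).coeff j := by
  rw [taylor_coeff, taylor_coeff]
  have key : ∀ n, P.natDegree < n → ((eval (C s) (hasseDeriv j P))).coeff e
      = eval s (hasseDeriv j (cf e P)) := by
    intro n hn
    have h1 : (hasseDeriv j P).natDegree < n := lt_of_le_of_lt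
      ((natDegree_hasseDeriv_le P j).trans (Nat.sub_le _ _)) hn
    have hcf : (cf e P).natDegree ≤ P.natDegree := by
      rw [natDegree_le_iff_coeff_eq_zero]
      intro N hN
      rw [cf_coeff, coeff_eq_zero_of_natDegree_lt hN, coeff_zero]
    have h2 : (hasseDeriv j (cf e P)).natDegree < n := lt_of_le_of_lt
      ((natDegree_hasseDeriv_le _ j).trans ((Nat.sub_le _ _).trans hcf)) hn
    rw [eval_eq_sum_range' h1, eval_eq_sum_range' h2, finsetSum_coeff]
    refine Finset.sum_congr rfl fun i _ => ?_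
    rw [hasseDeriv_coeff, hasseDeriv_coeff, cf_coeff, ← C_pow, coeff_mul_C]
    congr 1
    rw [← C_eq_natCast, coeff_C_mul]
  exact key _ (Nat.lt_succ_self _)

lemma taylor_coeff_of_eq {A : ℝ[X][X]} {B : ℝ[X]} {j₀ : ℕ}
    (h : ∀ i, j₀ ≤ i → A.coeff i = C (B.coeff i)) (s : ℝ) {j : ℕ} (hj : j₀ ≤ j) :
    (taylor (C s) A).coeff j = C ((taylor s B).coeff j) := by
  have h1 : (A - B.map C).degree < j := by
    rw [degree_lt_iff_coeff_zero]
    intro i hi
    rw [coeff_sub, coeff_map, h i (hj.trans hi), sub_self]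
  have h2 : (taylor (C s) (A - B.map C)).coeff j = 0 := by
    apply coeff_eq_zero_of_degree_lt
    rw [degree_taylor]; exact h1
  rw [map_sub, coeff_sub, sub_eq_zero] at h2
  rw [h2, ← map_taylor, coeff_map]

/-- For large `s` all Taylor coefficients of `Q` at `s` have the sign of the leading
coefficient. -/
lemma ev_taylor (Q : ℝ[X]) : ∀ᶠ s : ℝ in atTop, ∀ j ≤ Q.natDegree, Q ≠ 0 →
    0 < Q.leadingCoeff * (taylor s Q).coeff j := by
  have : ∀ j ∈ Finset.range (Q.natDegree + 1), ∀ᶠ s : ℝ in atTop, Q ≠ 0 →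
      0 < Q.leadingCoeff * (taylor s Q).coeff j := by
    intro j hj
    by_cases hQ : Q = 0
    · simp [hQ]
    have hj' : j ≤ Q.natDegree := by simpa [Nat.lt_succ_iff] using hj
    have hlc : 0 < (C Q.leadingCoeff * hasseDeriv j Q).leadingCoeff := by
      rw [leadingCoeff_mul, leadingCoeff_C]
      have h1 : (hasseDeriv j Q).leadingCoeff = (Q.natDegree.choose j : ℝ) * Q.leadingCoeff := by
        rw [leadingCoeff, natDegree_hasseDeriv, hasseDeriv_coeff, Nat.sub_add_cancel hj']
        rfl
      rw [h1]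
      have h2 : (0 : ℝ) < (Q.natDegree.choose j : ℝ) := by exact_mod_cast Nat.choose_pos hj'
      have h3 : 0 < Q.leadingCoeff * Q.leadingCoeff :=
        mul_self_pos.2 (leadingCoeff_ne_zero.2 hQ)
      have h4 := mul_pos h2 h3
      linarith [mul_assoc (Q.natDegree.choose j : ℝ) Q.leadingCoeff Q.leadingCoeff,
        mul_left_comm (Q.natDegree.choose j : ℝ) Q.leadingCoeff Q.leadingCoeff]
    filter_upwards [ev_pos hlc] with s hs _
    rw [eval_mul, eval_C] at hs
    rw [taylor_coeff]; exact hs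
  filter_upwards [(Finset.eventually_all _).2 this] with s hs j hj hQ
  exact hs j (by simpa [Nat.lt_succ_iff] using hj) hQ

/-- Crossing a knot: adding a polynomial with constant coefficients raises the number of blocks
by at most one, when one looks from a large constant distance. -/
theorem step (P : ℝ[X][X]) (F : ℝ[X]) : ∀ᶠ s : ℝ in atTop,
    (∀ m σ, Alt (taylor (C s) (P + F.map C)).coeff (m + 1) σ 0 →
      Alt (taylor (C s) P).coeff m σ 0) ∧
    (∀ j ≤ (P + F.map C).natDegree, P + F.map C ≠ 0 →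
      (taylor (C s) (P + F.map C)).coeff j ≠ 0) := by
  -- the threshold index
  obtain ⟨j₀, hj₀, hj₁⟩ : ∃ j₀, (∀ i, j₀ ≤ i → (P.coeff i).natDegree = 0) ∧
      (j₀ = 0 ∨ 0 < (P.coeff (j₀ - 1)).natDegree) := by
    classical
    have hex : ∃ j₀, ∀ i, j₀ ≤ i → (P.coeff i).natDegree = 0 := by
      refine ⟨P.natDegree + 1, fun i hi => ?_⟩
      rw [coeff_eq_zero_of_natDegree_lt (by omega), natDegree_zero]
    refine ⟨Nat.find hex, Nat.find_spec hex, ?_⟩
    rcases Nat.eq_zero_or_pos (Nat.find hex) with h0 | h0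
    · exact Or.inl h0
    · right
      have hmin := Nat.find_min hex (m := Nat.find hex - 1) (by omega)
      push Not at hmin
      obtain ⟨i, hi, hi'⟩ := hmin
      rcases eq_or_lt_of_le hi with h1 | h1
      · rw [h1]; exact Nat.pos_of_ne_zero hi'
      · exact absurd (Nat.find_spec hex i (by omega)) hi'
  -- nonconstant coefficients below the threshold
  have hA : ∀ᶠ s : ℝ in atTop, ∀ j < j₀, 0 < ((taylor (C s) P).coeff j).natDegree := by
    have : ∀ j ∈ Finset.range j₀, ∀ᶠ s : ℝ in atTop, 0 < ((taylor (C s) P).coeff j).natDegree := by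
      intro j hj
      have hj' : j < j₀ := Finset.mem_range.1 hj
      have hpos : 0 < (P.coeff (j₀ - 1)).natDegree := by
        rcases hj₁ with h | h
        · omega
        · exact h
      set e := (P.coeff (j₀ - 1)).natDegree with he
      have hne : hasseDeriv j (cf e P) ≠ 0 := by
        intro h0
        have h1 := congrArg (fun q => q.coeff (j₀ - 1 - j)) h0
        simp only [coeff_zero] at h1
        rw [hasseDeriv_coeff, Nat.sub_add_cancel (by omega), cf_coeff] at h1
        rcases mul_eq_zero.1 h1 with h2 | h2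
        · have : (j₀ - 1).choose j ≠ 0 := (Nat.choose_pos (by omega)).ne'
          exact this (by exact_mod_cast h2)
        · rw [he, coeff_natDegree, leadingCoeff_eq_zero] at h2
          rw [he, h2, natDegree_zero] at hpos
          exact absurd hpos (lt_irrefl _)
      filter_upwards [ev_ne hne] with s hs
      rw [← taylor_coeff, ← cf_taylor] at hs
      exact lt_of_lt_of_le hpos (le_natDegree_of_ne_zero hs)
    filter_upwards [(Finset.eventually_all _).2 this] with s hs j hj
    exact hs j (Finset.mem_range.2 hj)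
  -- the constant part
  set Q : ℝ[X] := cf 0 P + F with hQ
  have hPQ : ∀ i, j₀ ≤ i → (P + F.map C).coeff i = C (Q.coeff i) := by
    intro i hi
    rw [coeff_add, coeff_map, hQ, coeff_add, cf_coeff, C_add]
    congr 1
    exact eq_C_of_natDegree_eq_zero (hj₀ i hi)
  filter_upwards [hA, ev_taylor Q] with s hs hs'
  -- sums of coefficients
  have hsum : ∀ j, (taylor (C s) (P + F.map C)).coeff j
      = (taylor (C s) P).coeff j + C ((taylor s F).coeff j) := by
    intro j
    rw [map_add, coeff_add, ← map_taylor, coeff_map]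
  have hbig : ∀ j, j₀ ≤ j → ∀ σ, Sg σ ((taylor (C s) (P + F.map C)).coeff j) →
      0 < ((σ : ℤ) : ℝ) * Q.leadingCoeff := by
    intro j hj σ hσ
    rw [taylor_coeff_of_eq hPQ s hj] at hσ
    have hne := hσ.ne_zero
    have hQ0 : Q ≠ 0 := by
      rintro h0
      rw [h0] at hne
      simp at hne
    have hjd : j ≤ Q.natDegree := by
      by_contra hlt
      apply hne
      rw [coeff_eq_zero_of_natDegree_lt (by rw [natDegree_taylor]; omega), C_0]
    have h1 := hs' j hjd hQ0
    unfold Sg at hσ
    rw [leadingCoeff_C] at hσ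
    rcases Int.units_eq_one_or σ with rfl | rfl
    · simp only [Units.val_one, Int.cast_one, one_mul] at hσ ⊢
      exact (pos_iff_pos_of_mul_pos h1).2 hσ
    · simp only [Units.val_neg, Units.val_one, Int.cast_neg, Int.cast_one, neg_mul, one_mul,
        Left.neg_pos_iff] at hσ ⊢
      exact (neg_iff_neg_of_mul_pos h1).2 hσ
  have hchain : ∀ m σ k, Alt (taylor (C s) (P + F.map C)).coeff (m + 1) σ k →
      Alt (taylor (C s) P).coeff m σ k := by
    intro m
    induction m with
    | zero => intro σ k _; trivial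
    | succ m ih =>
      rintro σ k ⟨j, hj, h1, h2⟩
      have hjlt : j < j₀ := by
        by_contra hge
        push Not at hge
        obtain ⟨j', hj', h3, -⟩ := h2
        have h4 := hbig j hge σ h1
        have h5 := hbig j' (by omega) (-σ) h3
        push_cast at h5
        linarith
      refine ⟨j, hj, ?_, ih _ _ h2⟩
      rw [hsum] at h1
      exact (Sg_add_const _ (hs j hjlt)).1 h1
  refine ⟨fun m σ h => hchain m σ 0 h, ?_⟩
  intro j hj hne
  rcases lt_or_ge j j₀ with hlt | hge
  · rw [hsum]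
    intro h0
    have h1 := hs j hlt
    rw [eq_neg_of_add_eq_zero_left h0, natDegree_neg, natDegree_C] at h1
    exact absurd h1 (lt_irrefl _)
  · rw [taylor_coeff_of_eq hPQ s hge]
    have hQd : Q.coeff (P + F.map C).natDegree ≠ 0 := by
      have h1 := hPQ _ (hge.trans hj)
      intro h0
      rw [h0, C_0, coeff_natDegree, leadingCoeff_eq_zero] at h1
      exact hne h1
    have hQ0 : Q ≠ 0 := by rintro h0; rw [h0] at hQd; simp at hQd
    have h1 := hs' j (hj.trans (le_natDegree_of_ne_zero hQd)) hQ0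
    intro h0
    rw [C_eq_zero] at h0
    rw [h0, mul_zero] at h1
    exact absurd h1 (lt_irrefl _)

/-- The number of sign blocks of a sum over elements that all lie to the left of `t` is at most
the number of elements. -/
theorem chain_bound {ι : Type*} [DecidableEq ι] (F p : ι → ℝ[X]) (S : Finset ι)
    (hS : ∀ i ∈ S, ∀ j ∈ S, i ≠ j → 0 < (p i - p j).natDegree) (t : ℝ[X])
    (ht : ∀ i ∈ S, 0 < (t - p i).natDegree ∧ Sg 1 (t - p i)) (σ : ℤˣ) :
    ¬ Alt (taylor t (∑ i ∈ S, taylor (- p i) ((F i).map C))).coeff (S.card + 1) σ 0 := by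
  obtain ⟨n, hn⟩ : ∃ n, S.card = n := ⟨_, rfl⟩
  induction n generalizing S t σ with
  | zero =>
    rw [Finset.card_eq_zero] at hn
    subst hn
    rintro ⟨j, -, h1, -⟩
    simp [Sg] at h1
  | succ n ih =>
    -- a maximal element
    have hne : S.Nonempty := Finset.card_pos.1 (by omega)
    obtain ⟨m, hm, hmax⟩ : ∃ m ∈ S, ∀ i ∈ S, i ≠ m → Sg 1 (p m - p i) := by
      have hev : ∀ᶠ x : ℝ in atTop, ∀ i ∈ S, ∀ j ∈ S, Sg 1 (p i - p j) → (p j).eval x < (p i).eval x := by
        refine (Finset.eventually_all _).2 fun i _ => (Finset.eventually_all _).2 fun j _ => ?_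
        by_cases h : Sg 1 (p i - p j)
        · filter_upwards [h.ev] with x hx _
          simp at hx; exact hx
        · exact Eventually.of_forall fun x h' => absurd h' h
      obtain ⟨x, hx⟩ := hev.exists
      obtain ⟨m, hm, hmx⟩ := S.exists_max_image (fun i => (p i).eval x) hne
      refine ⟨m, hm, fun i hi him => ?_⟩
      rcases Sg_tri 1 (p m - p i) with h | h | h
      · have := hS m hm i hi him.symm
        rw [h, natDegree_zero] at this
        exact absurd this (lt_irrefl _)
      · exact h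
      · rw [Sg_neg_iff, neg_sub] at h
        exact absurd (hmx i hi) (not_le.2 (hx i hi m hm h))
    set S' := S.erase m with hS'
    have hcard : S'.card = n := by rw [hS', Finset.card_erase_of_mem hm, hn]; rfl
    set φ' : ℝ[X][X] := ∑ i ∈ S', taylor (- p i) ((F i).map C) with hφ'
    have hφ : ∑ i ∈ S, taylor (- p i) ((F i).map C) = φ' + taylor (- p m) ((F m).map C) := by
      rw [hφ', hS', Finset.sum_erase_add _ _ hm]
    obtain ⟨s, hs, -⟩ := (step (taylor (p m) φ') (F m)).exists
    have e1 : taylor (C s) (taylor (p m) φ' + (F m).map C)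
        = taylor (C s + p m) (∑ i ∈ S, taylor (- p i) ((F i).map C)) := by
      have e0 : C s + p m + - p m = C s := by ring
      rw [hφ, map_add, map_add, taylor_taylor, taylor_taylor, e0]
    have e2 : taylor (C s) (taylor (p m) φ') = taylor (C s + p m) φ' := by
      rw [taylor_taylor]
    have hpm : ∀ i ∈ S', 0 < (p m - p i).natDegree := fun i hi =>
      hS m hm i (Finset.mem_of_mem_erase hi) (Finset.ne_of_mem_erase hi).symm
    have hIH := ih S' (fun i hi j hj => hS i (Finset.mem_of_mem_erase hi) j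
      (Finset.mem_of_mem_erase hj)) (C s + p m) (fun i hi => by
        have h1 := hpm i hi
        have e3 : C s + p m - p i = (p m - p i) + C s := by ring
        rw [e3, Sg_add_const _ h1]
        exact ⟨by rwa [natDegree_add_C], hmax i (Finset.mem_of_mem_erase hi)
          (Finset.ne_of_mem_erase hi)⟩) σ hcard
    intro hcon
    apply hIH
    rw [hcard, ← e2]
    apply hs
    rw [e1]
    have hc : Sg 1 (t - (C s + p m)) := by
      have h1 := ht m hm
      have e4 : t - (C s + p m) = (t - p m) + C (-s) := by rw [C_neg]; ring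
      rw [e4, Sg_add_const _ h1.1]
      exact h1.2
    apply budan _ hc
    rw [taylor_taylor, sub_add_cancel, ← hn]
    exact hcon

/-- combination of the two sides -/
theorem two_sides (P : ℝ[X][X]) (F : ℝ[X]) (a b : ℕ) (hne : P + F.map C ≠ 0)
    (hL : ∀ (s : ℝ) σ, ¬ Alt (taylor (C s) P).coeff (a + 1) σ 0)
    (hR : ∀ (s : ℝ) σ, ¬ Alt (fun j => (-1) ^ j * (taylor (C s) (P + F.map C)).coeff j)
      (b + 1) σ 0) : (P + F.map C).natDegree + 1 ≤ a + b := by
  obtain ⟨s, hs, hs'⟩ := (step P F).exists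
  obtain ⟨m₁, m₂, σ₁, σ₂, hm, h1, h2⟩ := count_blocks _ _ (fun j hj => hs' j hj hne)
  have h3 : m₁ ≤ a + 1 := by
    by_contra hlt
    push Not at hlt
    have h4 : Alt (taylor (C s) (P + F.map C)).coeff (a + 1 + 1) σ₁ 0 := h1.mono_len (by omega)
    exact hL s σ₁ (hs _ _ h4)
  have h5 : m₂ ≤ b := by
    by_contra hlt
    push Not at hlt
    exact hR s σ₂ (h2.mono_len (by omega))
  omega

lemma coeff_comp_neg_X {R : Type*} [CommRing R] (P : R[X]) (j : ℕ) :
    (P.comp (-X)).coeff j = (-1) ^ j * P.coeff j := by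
  induction P using Polynomial.induction_on' with
  | add p q hp hq => rw [add_comp, coeff_add, coeff_add, hp, hq, mul_add]
  | monomial n a =>
    rw [monomial_comp, neg_pow, ← C_1, ← C_neg, ← C_pow, ← mul_assoc, ← C_mul, coeff_C_mul_X_pow,
      coeff_monomial]
    split_ifs with h1 h2 h2
    · subst h1; ring
    · exact absurd h1.symm h2
    · exact absurd h2.symm h1
    · simp

lemma taylor_comp_neg_X {R : Type*} [CommRing R] (P : R[X]) (r : R) :
    (taylor r P).comp (-X) = taylor (-r) (P.comp (-X)) := by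
  rw [taylor_apply, taylor_apply, comp_assoc, comp_assoc]
  congr 1
  simp [add_comm]

/-- **The degree bound.** -/
theorem weyl {ι : Type*} [DecidableEq ι] (F p : ι → ℝ[X]) (S : Finset ι)
    (hS : ∀ i ∈ S, ∀ j ∈ S, i ≠ j → 0 < (p i - p j).natDegree)
    (hrel : ∑ i ∈ S, taylor (- p i) ((F i).map C) = 0) (i : ι) (hi : i ∈ S) (hF : F i ≠ 0) :
    (F i).natDegree + 2 ≤ S.card := by
  classical
  set Sm := S.filter (fun k => Sg 1 (p i - p k)) with hSm
  set Sp := S.filter (fun k => Sg 1 (p k - p i)) with hSp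
  have hdec : S = insert i (Sm ∪ Sp) := by
    ext k
    simp only [hSm, hSp, Finset.mem_insert, Finset.mem_union, Finset.mem_filter]
    constructor
    · intro hk
      by_cases hki : k = i
      · exact Or.inl hki
      · right
        rcases Sg_tri 1 (p i - p k) with h | h | h
        · have := hS i hi k hk (fun h => hki h.symm)
          rw [h, natDegree_zero] at this
          exact absurd this (lt_irrefl _)
        · exact Or.inl ⟨hk, h⟩
        · rw [Sg_neg_iff, neg_sub] at h
          exact Or.inr ⟨hk, h⟩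
    · rintro (rfl | ⟨h, -⟩ | ⟨h, -⟩) <;> assumption
  have hdisj : Disjoint Sm Sp := by
    rw [Finset.disjoint_left]
    intro k h1 h2
    rw [hSm, Finset.mem_filter] at h1
    rw [hSp, Finset.mem_filter] at h2
    have h3 := h2.2.neg
    rw [neg_sub] at h3
    exact h1.2.not_neg h3
  have hinot : i ∉ Sm ∪ Sp := by
    simp only [hSm, hSp, Finset.mem_union, Finset.mem_filter, sub_self]
    rintro (⟨-, h⟩ | ⟨-, h⟩) <;> exact h.ne_zero rfl
  have hcard : S.card = Sm.card + Sp.card + 1 := by
    conv_lhs => rw [hdec]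
    rw [Finset.card_insert_of_notMem hinot, Finset.card_union_of_disjoint hdisj]
  set φm : ℝ[X][X] := ∑ k ∈ Sm, taylor (- p k) ((F k).map C) with hφm
  set φp : ℝ[X][X] := ∑ k ∈ Sp, taylor (- p k) ((F k).map C) with hφp
  have hrel' : taylor (- p i) ((F i).map C) + (φm + φp) = 0 := by
    have h0 := hrel
    rw [hdec, Finset.sum_insert hinot, Finset.sum_union hdisj] at h0
    exact h0
  set P : ℝ[X][X] := taylor (p i) φm with hP
  have hPF : P + (F i).map C = - taylor (p i) φp := by
    have h1 := congrArg (taylor (p i)) hrel'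
    rw [map_add, map_add, map_zero, taylor_taylor, add_neg_cancel, taylor_zero] at h1
    rw [hP]
    linear_combination h1
  have hSm' : ∀ k ∈ Sm, k ∈ S ∧ Sg 1 (p i - p k) ∧ i ≠ k := by
    intro k hk
    have h1 := (Finset.mem_filter.1 hk)
    refine ⟨h1.1, h1.2, ?_⟩
    rintro rfl
    exact h1.2.ne_zero (sub_self _)
  have hSp' : ∀ k ∈ Sp, k ∈ S ∧ Sg 1 (p k - p i) ∧ k ≠ i := by
    intro k hk
    have h1 := (Finset.mem_filter.1 hk)
    refine ⟨h1.1, h1.2, ?_⟩
    rintro rfl
    exact h1.2.ne_zero (sub_self _)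
  -- left bound
  have hL : ∀ (s : ℝ) σ, ¬ Alt (taylor (C s) P).coeff (Sm.card + 1) σ 0 := by
    intro s σ
    rw [hP, taylor_taylor]
    refine chain_bound F p Sm (fun a ha b hb => hS a (hSm' a ha).1 b (hSm' b hb).1) _ ?_ σ
    intro k hk
    obtain ⟨h1, h2, h3⟩ := hSm' k hk
    have hd := hS i hi k h1 h3
    have e : C s + p i - p k = (p i - p k) + C s := by ring
    rw [e, natDegree_add_C, Sg_add_const _ hd]
    exact ⟨hd, h2⟩
  -- right bound, by reflection
  have hR : ∀ (s : ℝ) σ, ¬ Alt (fun j => (-1) ^ j * (taylor (C s) (P + (F i).map C)).coeff j)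
      (Sp.card + 1) σ 0 := by
    intro s σ hcon
    have hcb := chain_bound (fun k => (F k).comp (-X)) (fun k => - p k) Sp
      (fun a ha b hb hab => by
        have := hS a (hSp' a ha).1 b (hSp' b hb).1 hab
        have e : - p a - - p b = -(p a - p b) := by ring
        show 0 < (- p a - - p b).natDegree
        rw [e, natDegree_neg]; exact this) (- (C s + p i))
      (fun k hk => by
        obtain ⟨h1, h2, h3⟩ := hSp' k hk
        have hd := hS k h1 i hi h3
        have e : - (C s + p i) - - p k = (p k - p i) + C (-s) := by rw [C_neg]; ring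
        rw [e, natDegree_add_C, Sg_add_const _ hd]
        exact ⟨hd, h2⟩) (-σ)
    apply hcb
    have e1 : ∑ k ∈ Sp, taylor (- (- p k)) (((F k).comp (-X)).map C) = φp.comp (-X) := by
      rw [hφp, Polynomial.sum_comp]
      refine Finset.sum_congr rfl fun k _ => ?_
      rw [taylor_comp_neg_X, Polynomial.map_comp]
      simp
    have e2 : taylor (- (C s + p i)) (φp.comp (-X)) = (taylor (C s + p i) φp).comp (-X) := by
      rw [taylor_comp_neg_X]
    have e3 : ∀ j, (taylor (- (C s + p i)) (∑ k ∈ Sp, taylor (- (- p k))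
        (((F k).comp (-X)).map C))).coeff j
        = - ((-1) ^ j * (taylor (C s) (P + (F i).map C)).coeff j) := by
      intro j
      rw [e1, e2, coeff_comp_neg_X, hPF, map_neg, coeff_neg, taylor_taylor]
      ring
    exact (Alt.congr e3).2 hcon.neg
  -- degrees
  have hFdeg : ((F i).map (C : ℝ →+* ℝ[X])).degree = (F i).degree :=
    degree_map_eq_of_injective C_injective _
  have hFne : (F i).map (C : ℝ →+* ℝ[X]) ≠ 0 := by
    rw [Ne, Polynomial.map_eq_zero_iff C_injective]; exact hF
  by_cases hcase : (F i).degree ≤ (P + (F i).map C).degree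
  · have hne : P + (F i).map C ≠ 0 := by
      intro h0
      rw [h0, degree_zero, le_bot_iff, degree_eq_bot] at hcase
      exact hF hcase
    have h1 := two_sides P (F i) _ _ hne hL hR
    have h2 : (F i).natDegree ≤ (P + (F i).map C).natDegree := natDegree_le_natDegree hcase
    omega
  · push Not at hcase
    have hPdeg : P.degree = (F i).degree := by
      have e : P = (P + (F i).map C) - (F i).map C := by ring
      rw [e, degree_sub_eq_right_of_degree_lt (by rw [hFdeg]; exact hcase), hFdeg]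
    have hPne : P ≠ 0 := by
      intro h0
      rw [h0, degree_zero] at hPdeg
      exact hF (degree_eq_bot.1 hPdeg.symm)
    -- reflected data
    set P' : ℝ[X][X] := -((P + (F i).map C).comp (-X)) with hP'
    set F' : ℝ[X] := (F i).comp (-X) with hF'
    have e0 : F'.map (C : ℝ →+* ℝ[X]) = ((F i).map C).comp (-X) := by
      rw [hF', Polynomial.map_comp]; simp
    have e1 : P' + F'.map C = - (P.comp (-X)) := by
      rw [hP', e0, add_comp]; ring
    have hne' : P' + F'.map C ≠ 0 := by
      rw [e1, neg_ne_zero]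
      intro h0
      apply hPne
      have h1 := congrArg (fun q => q.comp (-X)) h0
      simp only [comp_assoc, neg_comp, X_comp, neg_neg, comp_X, zero_comp] at h1
      exact h1
    have hL' : ∀ (s : ℝ) σ, ¬ Alt (taylor (C s) P').coeff (Sp.card + 1) σ 0 := by
      intro s σ hcon
      apply hR (-s) (-σ)
      have e2 : ∀ j, (-1) ^ j * (taylor (C (-s)) (P + (F i).map C)).coeff j
          = - (taylor (C s) P').coeff j := by
        intro j
        rw [hP', LinearMap.map_neg, coeff_neg, neg_neg, ← coeff_comp_neg_X, taylor_comp_neg_X, C_neg, neg_neg]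
      exact (Alt.congr e2).2 hcon.neg
    have hR' : ∀ (s : ℝ) σ, ¬ Alt (fun j => (-1) ^ j * (taylor (C s) (P' + F'.map C)).coeff j)
        (Sm.card + 1) σ 0 := by
      intro s σ hcon
      apply hL (-s) (-σ)
      have e2 : ∀ j, (taylor (C (-s)) P).coeff j
          = - ((-1) ^ j * (taylor (C s) (P' + F'.map C)).coeff j) := by
        intro j
        rw [e1, LinearMap.map_neg, coeff_neg]
        have e3 : taylor (C s) (P.comp (-X)) = (taylor (C (-s)) P).comp (-X) := by
          rw [taylor_comp_neg_X P (C (-s)), C_neg, neg_neg]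
        rw [e3, coeff_comp_neg_X, mul_neg, neg_neg, ← mul_assoc, ← mul_pow]
        simp
      exact (Alt.congr e2).2 hcon.neg
    have h1 := two_sides P' F' _ _ hne' hL' hR'
    have h2 : (P' + F'.map C).natDegree = (F i).natDegree := by
      rw [e1, natDegree_neg]
      have h3 : (P.comp (-X)).natDegree = P.natDegree := by
        rw [natDegree_comp, natDegree_neg, natDegree_X, mul_one]
      rw [h3]
      exact natDegree_eq_of_degree_eq hPdeg
    omega

end Pool.Agent.MPd26.H43
end

section
/-!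
Duality: from the degree bound to the statement that certain spans of vectors of polynomials
contain vectors supported (within a given set of indices) at one index.
-/
set_option autoImplicit false

open Polynomial Filter

namespace Pool.Agent.MPd26.H43

lemma hasseDeriv_map' {R S : Type*} [CommRing R] [CommRing S] (f : R →+* S) (j : ℕ) (P : R[X]) :
    hasseDeriv j (P.map f) = (hasseDeriv j P).map f := by
  ext n
  rw [hasseDeriv_coeff, coeff_map, coeff_map, hasseDeriv_coeff, map_mul, map_natCast]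

/-- the degree bound for rational `F_k`, integer `p_k`, with the relation tested on naturals -/
theorem weyl_rat {ι : Type*} [DecidableEq ι] (F : ι → ℚ[X]) (p : ι → ℤ[X]) (S : Finset ι)
    (hS : ∀ i ∈ S, ∀ j ∈ S, i ≠ j → 0 < (p i - p j).natDegree)
    (hrel : ∀ (n j : ℕ), ∑ k ∈ S, (hasseDeriv j (F k)).eval (((p k).eval (n : ℤ) : ℤ) : ℚ) = 0)
    (i : ι) (hi : i ∈ S) (hF : F i ≠ 0) : (F i).natDegree + 2 ≤ S.card := by
  have hinjZ : Function.Injective (Int.castRingHom ℝ) := Int.cast_injective
  have hinjQ : Function.Injective (algebraMap ℚ ℝ) := (algebraMap ℚ ℝ).injective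
  have h := weyl (fun k => (F k).map (algebraMap ℚ ℝ)) (fun k => - (p k).map (Int.castRingHom ℝ)) S
    (fun a ha b hb hab => by
      have e : - (p a).map (Int.castRingHom ℝ) - - (p b).map (Int.castRingHom ℝ)
          = - ((p a - p b).map (Int.castRingHom ℝ)) := by
        rw [Polynomial.map_sub]; ring
      show 0 < (- (p a).map (Int.castRingHom ℝ) - - (p b).map (Int.castRingHom ℝ)).natDegree
      rw [e, natDegree_neg, natDegree_map_eq_of_injective hinjZ]
      exact hS a ha b hb hab) ?_ i hi (by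
      rw [Ne, Polynomial.map_eq_zero_iff hinjQ]; exact hF)
  · rwa [natDegree_map_eq_of_injective hinjQ] at h
  · ext1 j
    rw [coeff_zero]
    apply Polynomial.eq_of_infinite_eval_eq
    apply Set.Infinite.mono (s := Set.range (fun n : ℕ => (n : ℝ)))
    · rintro _ ⟨n, rfl⟩
      simp only [Set.mem_ofPred_eq, neg_neg, eval_zero]
      rw [finsetSum_coeff, eval_finsetSum]
      have h1 := hrel n j
      have h2 : ((∑ k ∈ S, (hasseDeriv j (F k)).eval (((p k).eval (n : ℤ) : ℤ) : ℚ) : ℚ) : ℝ)
          = 0 := by rw [h1]; simp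
      rw [← h2, Rat.cast_sum]
      refine Finset.sum_congr rfl fun k _ => ?_
      rw [taylor_coeff, hasseDeriv_map', hasseDeriv_map', eval_map]
      have h3 : (Polynomial.eval (n : ℝ)) ((hasseDeriv j (F k)).map (algebraMap ℚ ℝ)
          |>.eval₂ C ((p k).map (Int.castRingHom ℝ)))
          = ((hasseDeriv j (F k)).map (algebraMap ℚ ℝ)).eval
            (((p k).map (Int.castRingHom ℝ)).eval (n : ℝ)) := by
        rw [← comp, eval_comp]
      rw [h3, eval_map, eval_map]
      have h4 : eval₂ (Int.castRingHom ℝ) (n : ℝ) (p k) = (((p k).eval (n : ℤ) : ℤ) : ℝ) := by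
        have := eval₂_at_apply (p := p k) (Int.castRingHom ℝ) (n : ℤ)
        simp
      rw [h4]
      have h5 := eval₂_at_apply (p := hasseDeriv j (F k)) (algebraMap ℚ ℝ)
        (((p k).eval (n : ℤ) : ℤ) : ℚ)
      simp
    · exact Set.infinite_range_of_injective Nat.cast_injective

/-- the truncated vector `x^j e^{c_k x}` -/
noncomputable def vecE {ι : Type*} (s : ℕ) (c : ι → ℚ) (j : ℕ) : ι → ℚ[X] := fun k =>
  ∑ m ∈ Finset.range s, C (c k ^ m / (m.factorial : ℚ)) * X ^ (m + j)

/-- the truncated vector `c'_k e^{c_k x}` -/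
noncomputable def vecV {ι : Type*} (s : ℕ) (c c' : ι → ℚ) : ι → ℚ[X] := fun k =>
  ∑ m ∈ Finset.range s, C (c' k * (c k ^ m / (m.factorial : ℚ))) * X ^ m

theorem span_lemma {ι : Type*} [Fintype ι] [DecidableEq ι] (p : ι → ℤ[X]) (s : ℕ)
    (U : Submodule ℚ (ι → ℚ[X]))
    (h1 : ∀ n j : ℕ, vecE s (fun k => (((p k).eval (n : ℤ) : ℤ) : ℚ)) j ∈ U)
    (h2 : ∀ n : ℕ, vecV s (fun k => (((p k).eval (n : ℤ) : ℤ) : ℚ))
      (fun k => (((derivative (p k)).eval (n : ℤ) : ℤ) : ℚ)) ∈ U)
    (h3 : ∀ (k : ι) (a : ℕ), s ≤ a → Pi.single k (X ^ a) ∈ U)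
    (S : Finset ι) (hS : ∀ i ∈ S, ∀ j ∈ S, i ≠ j → 0 < (p i - p j).natDegree)
    (i : ι) (hi : i ∈ S) (a : ℕ) (ha : S.card ≤ a + 2) :
    ∃ f ∈ U, f i = X ^ a ∧ ∀ k ∈ S, k ≠ i → f k = 0 := by
  classical
  let Z : Submodule ℚ (ι → ℚ[X]) :=
    { carrier := {f | ∀ k ∈ S, f k = 0}
      add_mem' := by
        intro f g hf hg k hk
        simp [hf k hk, hg k hk]
      zero_mem' := by intro k _; rfl
      smul_mem' := by
        intro c f hf k hk
        simp [hf k hk] }
  by_cases hmem : (Pi.single i (X ^ a) : ι → ℚ[X]) ∈ U ⊔ Z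
  · obtain ⟨f, hf, z, hz, hfz⟩ := Submodule.mem_sup.1 hmem
    refine ⟨f, hf, ?_, ?_⟩
    · have := congrFun hfz i
      simp only [Pi.add_apply, Pi.single_eq_same] at this
      rw [hz i hi, add_zero] at this
      exact this
    · intro k hk hki
      have := congrFun hfz k
      simp only [Pi.add_apply] at this
      rw [hz k hk, add_zero, Pi.single_eq_of_ne hki] at this
      exact this
  · exfalso
    obtain ⟨φ, hφ0, hφ⟩ := Submodule.exists_le_ker_of_notMem hmem
    have hφU : ∀ f ∈ U, φ f = 0 := fun f hf => hφ (Submodule.mem_sup_left hf)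
    have hφZ : ∀ f ∈ Z, φ f = 0 := fun f hf => hφ (Submodule.mem_sup_right hf)
    set ψ : ι → ℕ → ℚ := fun k b => φ (Pi.single k (X ^ b)) with hψ
    have hψs : ∀ k b, s ≤ b → ψ k b = 0 := fun k b hb => hφU _ (h3 k b hb)
    have hψZ : ∀ k b, k ∉ S → ψ k b = 0 := by
      intro k b hk
      apply hφZ
      intro l hl
      exact Pi.single_eq_of_ne (by rintro rfl; exact hk hl) _
    -- evaluation of φ on a vector
    have hexp : ∀ (g : ι → ℚ[X]), φ g = ∑ k ∈ S, φ (Pi.single k (g k)) := by
      intro g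
      have e1 : g = ∑ k, Pi.single k (g k) := by
        ext1 l
        rw [Finset.sum_apply, Finset.sum_pi_single]
        simp
      conv_lhs => rw [e1]
      rw [map_sum]
      symm
      apply Finset.sum_subset (Finset.subset_univ S)
      intro k _ hk
      apply hφZ
      intro l hl
      exact Pi.single_eq_of_ne (by rintro rfl; exact hk hl) _
    have hterm : ∀ (k : ι) (r : ℚ) (b : ℕ), φ (Pi.single k (C r * X ^ b)) = r * ψ k b := by
      intro k r b
      have : (Pi.single k (C r * X ^ b) : ι → ℚ[X]) = r • Pi.single k (X ^ b) := by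
        rw [← Pi.single_smul, smul_eq_C_mul]
      rw [this, map_smul, smul_eq_mul]
    have hsum : ∀ (k : ι) (t : Finset ℕ) (G : ℕ → ℚ[X]), φ (Pi.single k (∑ m ∈ t, G m))
        = ∑ m ∈ t, φ (Pi.single k (G m)) := by
      intro k t G
      have : (Pi.single k (∑ m ∈ t, G m) : ι → ℚ[X]) = ∑ m ∈ t, Pi.single k (G m) := by
        induction t using Finset.induction_on with
        | empty => simp
        | insert a t ha ih => rw [Finset.sum_insert ha, Finset.sum_insert ha, ← ih, Pi.single_add]
      rw [this, map_sum]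
    -- the polynomials F
    set F : ι → ℚ[X] := fun k => ∑ b ∈ Finset.range s,
      monomial (b + 1) (ψ k b / ((b + 1).factorial : ℚ)) with hF
    have hFc0 : ∀ k, (F k).coeff 0 = 0 := by
      intro k
      rw [hF]
      simp only [finsetSum_coeff, coeff_monomial]
      apply Finset.sum_eq_zero
      intro b _
      simp
    have hFc : ∀ k b, (F k).coeff (b + 1) = ψ k b / ((b + 1).factorial : ℚ) := by
      intro k b
      rw [hF]
      simp only [finsetSum_coeff, coeff_monomial]
      rw [Finset.sum_eq_single b]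
      · simp
      · intro b' _ hb'
        rw [if_neg]; omega
      · intro hb
        rw [if_pos rfl, hψs k b (by simpa using hb), zero_div]
    have hFdeg : ∀ k, (F k).natDegree < s + 1 := by
      intro k
      rw [Nat.lt_succ_iff, natDegree_le_iff_coeff_eq_zero]
      intro N hN
      obtain ⟨b, rfl⟩ : ∃ b, N = b + 1 := ⟨N - 1, by omega⟩
      rw [hFc, hψs k b (by omega), zero_div]
    -- the sum of the compositions is a constant
    have hQcast : ∀ (q : ℤ[X]) (n : ℕ), (q.map (Int.castRingHom ℚ)).eval (n : ℚ)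
        = ((q.eval (n : ℤ) : ℤ) : ℚ) := by
      intro q n
      rw [eval_map]
      have := eval₂_at_apply (p := q) (Int.castRingHom ℚ) (n : ℤ)
      simp
    have hFd : ∀ k, ∀ c : ℚ, (derivative (F k)).eval c
        = ∑ m ∈ Finset.range s, ψ k m * (c ^ m / (m.factorial : ℚ)) := by
      intro k c
      have hd : (derivative (F k)).natDegree < s + 1 :=
        lt_of_le_of_lt (natDegree_derivative_le _) (lt_of_le_of_lt (Nat.sub_le _ _) (hFdeg k))
      rw [eval_eq_sum_range' hd, Finset.sum_range_succ]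
      have e0 : (derivative (F k)).coeff s = 0 := by
        rw [coeff_derivative, hFc, hψs k s le_rfl]; simp
      rw [e0, zero_mul, add_zero]
      refine Finset.sum_congr rfl fun m _ => ?_
      rw [coeff_derivative, hFc, Nat.factorial_succ]
      have f3 : (m.factorial : ℚ) ≠ 0 := by exact_mod_cast (Nat.factorial_pos _).ne'
      have f4 : ((m : ℚ) + 1) ≠ 0 := by positivity
      push_cast
      field_simp
    obtain ⟨c₀, hc₀⟩ : ∃ c₀ : ℚ, ∀ n : ℕ, ∑ k ∈ S, (F k).eval
        (((p k).eval (n : ℤ) : ℤ) : ℚ) = c₀ := by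
      set R : ℚ[X] := ∑ k ∈ S, (F k).comp ((p k).map (Int.castRingHom ℚ)) with hR
      have hdR : derivative R = 0 := by
        apply Polynomial.eq_of_infinite_eval_eq
        apply Set.Infinite.mono (s := Set.range (fun n : ℕ => (n : ℚ)))
        · rintro _ ⟨n, rfl⟩
          simp only [Set.mem_ofPred_eq, eval_zero]
          rw [hR, derivative_sum, eval_finsetSum]
          have h4 := hφU _ (h2 n)
          rw [hexp] at h4
          rw [← h4]
          refine Finset.sum_congr rfl fun k _ => ?_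
          rw [derivative_comp, eval_mul, eval_comp, derivative_map, hQcast, hQcast, hFd]
          unfold vecV
          rw [hsum, Finset.mul_sum]
          refine Finset.sum_congr rfl fun m _ => ?_
          rw [hterm]
          ring
        · exact Set.infinite_range_of_injective Nat.cast_injective
      have hR0 := derivative_eq_zero.1 hdR
      obtain ⟨c, hc⟩ := natDegree_eq_zero.1 hR0
      refine ⟨c, fun n => ?_⟩
      have h5 : R.eval (n : ℚ) = c := by rw [← hc, eval_C]
      rw [← h5, hR, eval_finsetSum]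
      refine Finset.sum_congr rfl fun k _ => ?_
      rw [eval_comp, hQcast]
    -- correct one of the polynomials by the constant
    set F' : ι → ℚ[X] := fun k => if k = i then F k - C c₀ else F k with hF'
    have hrel : ∀ (n j : ℕ), ∑ k ∈ S, (hasseDeriv j (F' k)).eval
        (((p k).eval (n : ℤ) : ℤ) : ℚ) = 0 := by
      intro n j
      set c : ι → ℚ := fun k => (((p k).eval (n : ℤ) : ℤ) : ℚ) with hc
      show ∑ k ∈ S, (hasseDeriv j (F' k)).eval (c k) = 0
      cases j with
      | zero =>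
        have h5 : ∀ k, (hasseDeriv 0 (F' k)).eval (c k) = (F k).eval (c k) -
            (if k = i then c₀ else 0) := by
          intro k
          rw [hasseDeriv_zero', hF']
          by_cases hk : k = i
          · simp [hk]
          · simp [hk]
        rw [Finset.sum_congr rfl fun k _ => h5 k, Finset.sum_sub_distrib, Finset.sum_ite_eq',
          if_pos hi]
        have := hc₀ n
        rw [sub_eq_zero]; exact this
      | succ j =>
        have h6 : ∀ k, hasseDeriv (j + 1) (F' k) = hasseDeriv (j + 1) (F k) := by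
          intro k
          rw [hF']
          by_cases hk : k = i
          · simp only [hk, if_true]
            rw [map_sub, hasseDeriv_C _ _ (Nat.succ_pos j), sub_zero]
          · simp only [hk, if_false]
        have hev : ∀ k, (hasseDeriv (j + 1) (F k)).eval (c k)
            = ∑ m ∈ Finset.range (s + 1),
              ((m + (j + 1)).choose (j + 1) : ℚ) * (F k).coeff (m + (j + 1)) * c k ^ m := by
          intro k
          rw [eval_eq_sum_range' (n := s + 1) (lt_of_le_of_lt ((natDegree_hasseDeriv_le _ _).trans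
            (Nat.sub_le _ _)) (hFdeg k))]
          refine Finset.sum_congr rfl fun m _ => ?_
          rw [hasseDeriv_coeff]
        have h4 := hφU _ (h1 n j)
        rw [hexp] at h4
        have h5 : ∀ k, ∑ m ∈ Finset.range (s + 1),
            ((m + (j + 1)).choose (j + 1) : ℚ) * (F k).coeff (m + (j + 1)) * c k ^ m
            = (1 / ((j + 1).factorial : ℚ)) * φ (Pi.single k (vecE s c j k)) := by
          intro k
          unfold vecE
          rw [hsum, Finset.sum_range_succ, ← add_assoc, hFc, hψs k (s + j) (by omega), zero_div,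
            mul_zero, zero_mul, add_zero, Finset.mul_sum]
          refine Finset.sum_congr rfl fun m _ => ?_
          rw [hterm, ← add_assoc, hFc]
          have e1 : ((m + j + 1).choose (j + 1) : ℚ) * ((j + 1).factorial : ℚ) * (m.factorial : ℚ)
              = ((m + j + 1).factorial : ℚ) := by
            have := Nat.choose_mul_factorial_mul_factorial (n := m + j + 1) (k := j + 1) (by omega)
            have e2 : m + j + 1 - (j + 1) = m := by omega
            rw [e2] at this
            exact_mod_cast this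
          have f1 : ((m + j + 1).factorial : ℚ) ≠ 0 := by exact_mod_cast (Nat.factorial_pos _).ne'
          have f2 : ((j + 1).factorial : ℚ) ≠ 0 := by exact_mod_cast (Nat.factorial_pos _).ne'
          have f3 : (m.factorial : ℚ) ≠ 0 := by exact_mod_cast (Nat.factorial_pos _).ne'
          field_simp
          rw [← e1]
          ring
        calc ∑ k ∈ S, (hasseDeriv (j + 1) (F' k)).eval (c k)
            = ∑ k ∈ S, (1 / ((j + 1).factorial : ℚ)) * φ (Pi.single k (vecE s c j k)) := by
              refine Finset.sum_congr rfl fun k _ => ?_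
              rw [h6, hev, h5]
          _ = 0 := by rw [← Finset.mul_sum, h4, mul_zero]
    have hψi : ψ i a ≠ 0 := hφ0
    have hcoef : (F' i).coeff (a + 1) ≠ 0 := by
      have e : F' i = F i - C c₀ := by rw [hF']; simp
      rw [e, coeff_sub, hFc, coeff_C_succ, sub_zero]
      exact div_ne_zero hψi (by exact_mod_cast (Nat.factorial_pos _).ne')
    have hFi : F' i ≠ 0 := by rintro h0; rw [h0] at hcoef; simp at hcoef
    have h6 := weyl_rat F' p S hS hrel i hi hFi
    have h7 := le_natDegree_of_ne_zero hcoef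
    omega

end Pool.Agent.MPd26.H43
end

section
/-!
The Lie algebra theorem: a Lie subalgebra of `L^N` that contains the vectors
`(exp(p_k(n) δ) w)_k` and `((exp(p_k(n) δ) - 1)/δ v)_k` (`v` in a generating subspace)
contains the `(N-1)`-st term of the lower central series (with respect to `L` and `δ`)
in each coordinate.
-/
set_option autoImplicit false

open Polynomial Filter

namespace Pool.Agent.MPd26.H43

variable {L : Type*} [LieRing L] [LieAlgebra ℚ L]

/-- `lcsD δ k` is the `(k+1)`-st term of the lower central series of `L ⋊ ℚ δ`, intersected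
with `L`: `lcsD δ 0 = L`, and `lcsD δ (k+1)` is spanned by `⁅u, v⁆` and `δ v`, `u ∈ L`,
`v ∈ lcsD δ k`. -/
def lcsD (δ : LieDerivation ℚ L L) : ℕ → Submodule ℚ L
  | 0 => ⊤
  | k + 1 => Submodule.span ℚ
      ({x | ∃ u : L, ∃ v ∈ lcsD δ k, x = ⁅u, v⁆} ∪ {x | ∃ v ∈ lcsD δ k, x = δ v})

lemma lcsD_brack {δ : LieDerivation ℚ L L} {k : ℕ} (u : L) {v : L} (hv : v ∈ lcsD δ k) :
    ⁅u, v⁆ ∈ lcsD δ (k + 1) :=
  Submodule.subset_span (Or.inl ⟨u, v, hv, rfl⟩)

lemma lcsD_der {δ : LieDerivation ℚ L L} {k : ℕ} {v : L} (hv : v ∈ lcsD δ k) :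
    δ v ∈ lcsD δ (k + 1) :=
  Submodule.subset_span (Or.inr ⟨v, hv, rfl⟩)

lemma lcsD_succ_le (δ : LieDerivation ℚ L L) (k : ℕ) : lcsD δ (k + 1) ≤ lcsD δ k := by
  induction k with
  | zero => exact le_top
  | succ k ih =>
    apply Submodule.span_le.2
    rintro x (⟨u, v, hv, rfl⟩ | ⟨v, hv, rfl⟩)
    · exact lcsD_brack u (ih hv)
    · exact lcsD_der (ih hv)

lemma lcsD_anti (δ : LieDerivation ℚ L L) : Antitone (lcsD δ) :=
  antitone_nat_of_succ_le (lcsD_succ_le δ)

lemma lcsD_brack_brack (δ : LieDerivation ℚ L L) (i j : ℕ) {u v : L} (hu : u ∈ lcsD δ i)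
    (hv : v ∈ lcsD δ j) : ⁅u, v⁆ ∈ lcsD δ (i + j + 1) := by
  induction i generalizing u v j with
  | zero => rw [Nat.zero_add]; exact lcsD_brack u hv
  | succ i ih =>
    rw [lcsD] at hu
    induction hu using Submodule.span_induction with
    | mem x hx =>
      rcases hx with ⟨a, b, hb, rfl⟩ | ⟨b, hb, rfl⟩
      · rw [lie_lie a b v]
        apply Submodule.sub_mem
        · have h1 := ih j hb hv
          have h2 := lcsD_brack a h1
          have e : i + 1 + j + 1 = i + j + 1 + 1 := by omega
          rw [e]; exact h2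
        · have h1 := lcsD_brack a hv
          have h2 := ih (j + 1) hb h1
          have e : i + 1 + j + 1 = i + (j + 1) + 1 := by omega
          rw [e]; exact h2
      · have e0 : ⁅δ b, v⁆ = δ ⁅b, v⁆ - ⁅b, δ v⁆ := by
          rw [LieDerivation.apply_lie_eq_add]; abel
        rw [e0]
        apply Submodule.sub_mem
        · have h1 := ih j hb hv
          have h2 := lcsD_der h1
          have e : i + 1 + j + 1 = i + j + 1 + 1 := by omega
          rw [e]; exact h2
        · have h1 := lcsD_der hv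
          have h2 := ih (j + 1) hb h1
          have e : i + 1 + j + 1 = i + (j + 1) + 1 := by omega
          rw [e]; exact h2
    | zero => simp
    | add x y _ _ hx hy => rw [add_lie]; exact Submodule.add_mem _ hx hy
    | smul c x _ hx => rw [smul_lie]; exact Submodule.smul_mem _ _ hx

/-- monomials: iterated brackets of `δ^a v`, `v ∈ V`, with their level -/
inductive Mon (δ : LieDerivation ℚ L L) (V : Submodule ℚ L) : ℕ → L → Prop
  | base (a : ℕ) (v : L) (hv : v ∈ V) : Mon δ V (a + 1) ((⇑δ)^[a] v)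
  | brack {K K' : ℕ} {u w : L} (hu : Mon δ V K u) (hw : Mon δ V K' w) : Mon δ V (K + K') ⁅u, w⁆

lemma Mon.pos {δ : LieDerivation ℚ L L} {V : Submodule ℚ L} {K : ℕ} {u : L} (h : Mon δ V K u) :
    0 < K := by
  induction h with
  | base a v hv => omega
  | brack _ _ h1 h2 => omega

lemma Mon.mem {δ : LieDerivation ℚ L L} {V : Submodule ℚ L} {K : ℕ} {u : L} (h : Mon δ V K u) :
    u ∈ lcsD δ (K - 1) := by
  induction h with
  | base a v hv =>
    rw [Nat.add_sub_cancel]
    clear hv
    induction a with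
    | zero => exact Submodule.mem_top
    | succ a ih => rw [Function.iterate_succ_apply']; exact lcsD_der ih
  | @brack K K' u w hu hw h1 h2 =>
    have := lcsD_brack_brack δ _ _ h1 h2
    have p1 := hu.pos
    have p2 := hw.pos
    have e : K - 1 + (K' - 1) + 1 = K + K' - 1 := by omega
    rwa [e] at this

lemma Mon.der {δ : LieDerivation ℚ L L} {V : Submodule ℚ L} {K : ℕ} {u : L} (h : Mon δ V K u) :
    δ u ∈ Submodule.span ℚ {x | Mon δ V (K + 1) x} := by
  induction h with
  | base a v hv =>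
    apply Submodule.subset_span
    rw [← Function.iterate_succ_apply' (⇑δ) a v]
    exact Mon.base (a + 1) v hv
  | @brack K K' u w hu hw h1 h2 =>
    rw [LieDerivation.apply_lie_eq_add]
    apply Submodule.add_mem
    · -- ⁅u, δ w⁆
      have hmap : ∀ x ∈ Submodule.span ℚ {x | Mon δ V (K' + 1) x},
          ⁅u, x⁆ ∈ Submodule.span ℚ {x | Mon δ V (K + K' + 1) x} := by
        intro x hx
        induction hx using Submodule.span_induction with
        | mem x hx => exact Submodule.subset_span (by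
            have := Mon.brack hu hx
            rwa [← add_assoc] at this)
        | zero => simp
        | add x y _ _ hx hy => rw [lie_add]; exact Submodule.add_mem _ hx hy
        | smul c x _ hx => rw [lie_smul]; exact Submodule.smul_mem _ _ hx
      exact hmap _ h2
    · have hmap : ∀ x ∈ Submodule.span ℚ {x | Mon δ V (K + 1) x},
          ⁅x, w⁆ ∈ Submodule.span ℚ {x | Mon δ V (K + K' + 1) x} := by
        intro x hx
        induction hx using Submodule.span_induction with
        | mem x hx =>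
          apply Submodule.subset_span
          have := Mon.brack hx hw
          have e : K + 1 + K' = K + K' + 1 := by omega
          rwa [e] at this
        | zero => simp
        | add x y _ _ hx hy => rw [add_lie]; exact Submodule.add_mem _ hx hy
        | smul c x _ hx => rw [smul_lie]; exact Submodule.smul_mem _ _ hx
      exact hmap _ h1

/-- modulo the next term, the terms of the series are spanned by monomials -/
lemma lcsD_le_mon (δ : LieDerivation ℚ L L) (V : Submodule ℚ L) (hV : V ⊔ lcsD δ 1 = ⊤) (k : ℕ) :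
    lcsD δ k ≤ Submodule.span ℚ {x | Mon δ V (k + 1) x} ⊔ lcsD δ (k + 1) := by
  induction k with
  | zero =>
    intro x _
    have hx : x ∈ V ⊔ lcsD δ 1 := by rw [hV]; exact Submodule.mem_top
    obtain ⟨v, hv, w, hw, rfl⟩ := Submodule.mem_sup.1 hx
    exact Submodule.add_mem _ (Submodule.mem_sup_left (Submodule.subset_span (Mon.base 0 v hv)))
      (Submodule.mem_sup_right hw)
  | succ k ih =>
    apply Submodule.span_le.2
    have hder : ∀ x ∈ Submodule.span ℚ {x | Mon δ V (k + 1) x},
        δ x ∈ Submodule.span ℚ {x | Mon δ V (k + 1 + 1) x} := by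
      intro x hx
      induction hx using Submodule.span_induction with
      | mem x hx => exact Mon.der hx
      | zero => simp
      | add x y _ _ hx hy => rw [map_add]; exact Submodule.add_mem _ hx hy
      | smul c x _ hx => rw [map_smul]; exact Submodule.smul_mem _ _ hx
    have hbr : ∀ v ∈ V, ∀ x ∈ Submodule.span ℚ {x | Mon δ V (k + 1) x},
        ⁅v, x⁆ ∈ Submodule.span ℚ {x | Mon δ V (k + 1 + 1) x} := by
      intro v hv x hx
      induction hx using Submodule.span_induction with
      | mem x hx =>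
        apply Submodule.subset_span
        have := Mon.brack (Mon.base 0 v hv) hx
        have e : 0 + 1 + (k + 1) = k + 1 + 1 := by omega
        rw [e] at this
        exact this
      | zero => simp
      | add x y _ _ hx hy => rw [lie_add]; exact Submodule.add_mem _ hx hy
      | smul c x _ hx => rw [lie_smul]; exact Submodule.smul_mem _ _ hx
    rintro x (⟨u, v, hv, rfl⟩ | ⟨v, hv, rfl⟩)
    · obtain ⟨y, hy, z, hz, rfl⟩ := Submodule.mem_sup.1 (ih hv)
      have hu : u ∈ V ⊔ lcsD δ 1 := by rw [hV]; exact Submodule.mem_top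
      obtain ⟨a, ha, b, hb, rfl⟩ := Submodule.mem_sup.1 hu
      rw [lie_add, add_lie]
      refine Submodule.add_mem _ (Submodule.add_mem _ (Submodule.mem_sup_left (hbr a ha y hy))
        (Submodule.mem_sup_right ?_)) (Submodule.mem_sup_right (lcsD_brack _ hz))
      -- ⁅b, y⁆ with b in lcsD 1, y in lcsD k
      have hyk : y ∈ lcsD δ k := by
        have : y = (y + z) - z := by abel
        rw [this]
        exact Submodule.sub_mem _ hv (lcsD_succ_le δ k hz)
      have := lcsD_brack_brack δ 1 k hb hyk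
      have e : 1 + k + 1 = k + 1 + 1 := by omega
      rwa [e] at this
    · obtain ⟨y, hy, z, hz, rfl⟩ := Submodule.mem_sup.1 (ih hv)
      rw [map_add]
      exact Submodule.add_mem _ (Submodule.mem_sup_left (hder y hy))
        (Submodule.mem_sup_right (lcsD_der hz))

/-- `exp(c δ) w`, truncated at `s` terms -/
noncomputable def expD (δ : LieDerivation ℚ L L) (s : ℕ) (c : ℚ) (w : L) : L :=
  ∑ m ∈ Finset.range s, (c ^ m / (m.factorial : ℚ)) • (⇑δ)^[m] w

theorem lie_main {ι : Type*} [Fintype ι] [DecidableEq ι] (p : ι → ℤ[X])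
    (hp : ∀ i j, i ≠ j → 0 < (p i - p j).natDegree)
    (δ : LieDerivation ℚ L L) (s : ℕ) (hs : lcsD δ s = ⊥)
    (V : Submodule ℚ L) (hV : V ⊔ lcsD δ 1 = ⊤)
    (H : Submodule ℚ (ι → L)) (hH : ∀ f ∈ H, ∀ g ∈ H, (fun k => ⁅f k, g k⁆) ∈ H)
    (hE : ∀ (w : L) (n : ℕ), (fun k => expD δ s (((p k).eval (n : ℤ) : ℤ) : ℚ) w) ∈ H)
    (hI : ∀ v ∈ V, ∀ n : ℕ, (fun k => (((derivative (p k)).eval (n : ℤ) : ℤ) : ℚ) •
      expD δ s (((p k).eval (n : ℤ) : ℤ) : ℚ) v) ∈ H)
    (i : ι) (k : ℕ) (hk : Fintype.card ι ≤ k + 2) (w : L) (hw : w ∈ lcsD δ k) :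
    (Pi.single i w : ι → L) ∈ H := by
  classical
  set D : Module.End ℚ L := (δ : L →ₗ[ℚ] L) with hD
  have hDpow : ∀ (a : ℕ) (x : L), (D ^ a) x = (⇑δ)^[a] x := by
    intro a x
    rw [Module.End.pow_apply]; rfl
  have hDs : ∀ (a : ℕ) (x : L), s ≤ a → (⇑δ)^[a] x = 0 := by
    intro a x ha
    have h1 : ∀ b, (⇑δ)^[b] x ∈ lcsD δ b := by
      intro b
      induction b with
      | zero => exact Submodule.mem_top
      | succ b ih => rw [Function.iterate_succ_apply']; exact lcsD_der ih
    have h2 := lcsD_anti δ ha (h1 a)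
    rw [hs] at h2
    exact (Submodule.mem_bot ℚ).1 h2
  -- the evaluation maps
  let Ψ : L → (ι → ℚ[X]) →ₗ[ℚ] (ι → L) := fun v =>
    { toFun := fun f k => aeval D (f k) v
      map_add' := by intro f g; ext k; simp
      map_smul' := by intro c f; ext k; simp }
  have hΨ : ∀ v f k, Ψ v f k = aeval D (f k) v := fun _ _ _ => rfl
  let U : Submodule ℚ (ι → ℚ[X]) :=
    { carrier := {f | ∀ v ∈ V, Ψ v f ∈ H}
      add_mem' := by
        intro f g hf hg v hv
        rw [map_add]; exact add_mem (hf v hv) (hg v hv)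
      zero_mem' := by intro v _; rw [map_zero]; exact zero_mem _
      smul_mem' := by
        intro c f hf v hv
        rw [map_smul]; exact H.smul_mem c (hf v hv) }
  have hU1 : ∀ n j : ℕ, vecE s (fun k => (((p k).eval (n : ℤ) : ℤ) : ℚ)) j ∈ U := by
    intro n j v hv
    have e : Ψ v (vecE s (fun k => (((p k).eval (n : ℤ) : ℤ) : ℚ)) j)
        = fun k => expD δ s (((p k).eval (n : ℤ) : ℤ) : ℚ) ((⇑δ)^[j] v) := by
      ext k
      rw [hΨ, vecE, expD, map_sum, LinearMap.sum_apply]
      refine Finset.sum_congr rfl fun m _ => ?_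
      rw [map_mul, aeval_C, map_pow, aeval_X, Module.End.mul_apply, hDpow,
        Module.algebraMap_end_apply, Function.iterate_add_apply]
    rw [e]; exact hE _ n
  have hU2 : ∀ n : ℕ, vecV s (fun k => (((p k).eval (n : ℤ) : ℤ) : ℚ))
      (fun k => (((derivative (p k)).eval (n : ℤ) : ℤ) : ℚ)) ∈ U := by
    intro n v hv
    have e : Ψ v (vecV s (fun k => (((p k).eval (n : ℤ) : ℤ) : ℚ))
          (fun k => (((derivative (p k)).eval (n : ℤ) : ℤ) : ℚ)))
        = fun k => (((derivative (p k)).eval (n : ℤ) : ℤ) : ℚ) •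
          expD δ s (((p k).eval (n : ℤ) : ℤ) : ℚ) v := by
      ext k
      rw [hΨ, vecV, expD, map_sum, LinearMap.sum_apply, Finset.smul_sum]
      refine Finset.sum_congr rfl fun m _ => ?_
      rw [map_mul, aeval_C, map_pow, aeval_X, Module.End.mul_apply, hDpow,
        Module.algebraMap_end_apply, smul_smul]
    rw [e]; exact hI v hv n
  have hU3 : ∀ (k : ι) (a : ℕ), s ≤ a → Pi.single k (X ^ a) ∈ U := by
    intro k a ha v _
    have e : Ψ v (Pi.single k (X ^ a)) = 0 := by
      ext l
      rw [hΨ]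
      by_cases hl : l = k
      · subst hl
        rw [Pi.single_eq_same, map_pow, aeval_X, hDpow, hDs a v ha]; rfl
      · rw [Pi.single_eq_of_ne hl]; simp
    rw [e]; exact zero_mem _
  -- elements of H with prescribed zeros
  let HA : Finset ι → Submodule ℚ L := fun A =>
    { carrier := {w | ∃ h ∈ H, h i = w ∧ ∀ k ∈ A, h k = 0}
      add_mem' := by
        rintro a b ⟨h, hh, h1, h2⟩ ⟨g, hg, g1, g2⟩
        exact ⟨h + g, add_mem hh hg, by rw [Pi.add_apply, h1, g1],
          fun k hk => by rw [Pi.add_apply, h2 k hk, g2 k hk, add_zero]⟩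
      zero_mem' := ⟨0, zero_mem _, rfl, fun _ _ => rfl⟩
      smul_mem' := by
        rintro c a ⟨h, hh, h1, h2⟩
        exact ⟨c • h, H.smul_mem c hh, by rw [Pi.smul_apply, h1],
          fun k hk => by rw [Pi.smul_apply, h2 k hk, smul_zero]⟩ }
  have hmon : ∀ K u, Mon δ V K u → ∀ A : Finset ι, i ∉ A → A.card ≤ K → u ∈ HA A := by
    intro K u hu
    induction hu with
    | base a v hv =>
      intro A hiA hA
      obtain ⟨f, hf, hfi, hfk⟩ := span_lemma p s U hU1 hU2 hU3 (insert i A)
        (fun a _ b _ hab => hp a b hab) i (Finset.mem_insert_self i A) a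
        (by rw [Finset.card_insert_of_notMem hiA]; omega)
      refine ⟨Ψ v f, hf v hv, ?_, ?_⟩
      · rw [hΨ, hfi, map_pow, aeval_X, hDpow]
      · intro k hk
        rw [hΨ, hfk k (Finset.mem_insert_of_mem hk) (fun h => hiA (h ▸ hk))]
        simp
    | @brack K K' u w hu hw h1 h2 =>
      intro A hiA hA
      obtain ⟨A₁, hA₁, hc⟩ := Finset.exists_subset_card_eq (s := A) (n := min K A.card)
        (min_le_right _ _)
      have hc2 : (A \ A₁).card = A.card - min K A.card := by
        rw [Finset.card_sdiff_of_subset hA₁, hc]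
      obtain ⟨g, hg, g1, g2⟩ := h1 A₁ (fun h => hiA (hA₁ h)) (by rw [hc]; exact min_le_left _ _)
      obtain ⟨h, hh, e1, e2⟩ := h2 (A \ A₁) (fun h => hiA (Finset.mem_sdiff.1 h).1)
        (by rw [hc2]; omega)
      refine ⟨fun k => ⁅g k, h k⁆, hH g hg h hh, ?_, ?_⟩
      · show ⁅g i, h i⁆ = ⁅u, w⁆
        rw [g1, e1]
      · intro k hk
        show ⁅g k, h k⁆ = 0
        by_cases hk1 : k ∈ A₁
        · rw [g2 k hk1, zero_lie]
        · rw [e2 k (Finset.mem_sdiff.2 ⟨hk, hk1⟩), lie_zero]
  have hall : ∀ d k, s ≤ k + d → ∀ A : Finset ι, i ∉ A → A.card ≤ k + 1 → lcsD δ k ≤ HA A := by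
    intro d
    induction d with
    | zero =>
      intro k hk A _ _
      have : lcsD δ k ≤ lcsD δ s := lcsD_anti δ (by omega)
      rw [hs] at this
      exact this.trans bot_le
    | succ d ih =>
      intro k hk A hiA hA
      refine (lcsD_le_mon δ V hV k).trans (sup_le ?_ ?_)
      · apply Submodule.span_le.2
        intro u hu
        exact hmon (k + 1) u hu A hiA hA
      · exact ih (k + 1) (by omega) A hiA (by omega)
  obtain ⟨h, hh, h1, h2⟩ := hall s k (by omega) (Finset.univ.erase i) (by simp)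
    (by rw [Finset.card_erase_of_mem (Finset.mem_univ i), Finset.card_univ]; omega) hw
  have : (Pi.single i w : ι → L) = h := by
    ext l
    by_cases hl : l = i
    · subst hl; rw [Pi.single_eq_same, h1]
    · rw [Pi.single_eq_of_ne hl, h2 l (Finset.mem_erase.2 ⟨hl, Finset.mem_univ _⟩)]
  rw [this]; exact hh

end Pool.Agent.MPd26.H43
end

section
/-!
The version with one irrational vector `e ∈ ℝ ⊗ L` in place of the generating subspace `V`.
-/
set_option autoImplicit false

open Polynomial TensorProduct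

namespace Pool.Agent.MPd26.H43

variable {L : Type*} [LieRing L] [LieAlgebra ℚ L]

/-- `expD` as a linear map -/
noncomputable def expDL (δ : LieDerivation ℚ L L) (s : ℕ) (c : ℚ) : L →ₗ[ℚ] L :=
  ∑ m ∈ Finset.range s, (c ^ m / (m.factorial : ℚ)) • ((δ : L →ₗ[ℚ] L) : Module.End ℚ L) ^ m

lemma expDL_apply (δ : LieDerivation ℚ L L) (s : ℕ) (c : ℚ) (v : L) :
    expDL δ s c v = expD δ s c v := by
  unfold expDL expD
  rw [LinearMap.sum_apply]
  refine Finset.sum_congr rfl fun m _ => ?_
  rw [LinearMap.smul_apply, Module.End.pow_apply]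
  rfl

/-- velocity vector at time `n` as a linear map -/
noncomputable def velL {ι : Type*} (p : ι → ℤ[X]) (δ : LieDerivation ℚ L L) (s : ℕ) (n : ℕ) :
    L →ₗ[ℚ] (ι → L) :=
  LinearMap.pi fun k => (((derivative (p k)).eval (n : ℤ) : ℤ) : ℚ) •
    expDL δ s (((p k).eval (n : ℤ) : ℤ) : ℚ)

/-- contraction of the first tensor factor by a rational functional of `ℝ` -/
noncomputable def contr (θ : ℝ →ₗ[ℚ] ℚ) (M : Type*) [AddCommGroup M] [Module ℚ M] :
    ℝ ⊗[ℚ] M →ₗ[ℚ] M :=
  (TensorProduct.lid ℚ M).toLinearMap ∘ₗ LinearMap.rTensor M θ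

lemma contr_tmul (θ : ℝ →ₗ[ℚ] ℚ) {M : Type*} [AddCommGroup M] [Module ℚ M] (r : ℝ) (m : M) :
    contr θ M (r ⊗ₜ[ℚ] m) = θ r • m := by
  simp [contr]

lemma contr_baseChange (θ : ℝ →ₗ[ℚ] ℚ) {M M' : Type*} [AddCommGroup M] [Module ℚ M]
    [AddCommGroup M'] [Module ℚ M'] (f : M →ₗ[ℚ] M') (x : ℝ ⊗[ℚ] M) :
    contr θ M' (f.baseChange ℝ x) = f (contr θ M x) := by
  induction x using TensorProduct.induction_on with
  | zero => simp
  | tmul r m => rw [LinearMap.baseChange_tmul, contr_tmul, contr_tmul, map_smul]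
  | add x y hx hy => rw [map_add, map_add, map_add, map_add, hx, hy]

lemma contr_mem (θ : ℝ →ₗ[ℚ] ℚ) {M : Type*} [AddCommGroup M] [Module ℚ M] (H : Submodule ℚ M)
    {x : ℝ ⊗[ℚ] M} (hx : x ∈ H.baseChange ℝ) : contr θ M x ∈ H := by
  have key : ∀ r : ℝ, contr θ M (r • x) ∈ H := by
    rw [Submodule.baseChange_eq_span] at hx
    induction hx using Submodule.span_induction with
    | mem y hy =>
      intro r
      obtain ⟨h, hh, rfl⟩ := hy
      rw [TensorProduct.mk_apply, TensorProduct.smul_tmul', contr_tmul]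
      exact H.smul_mem _ hh
    | zero => intro r; rw [smul_zero, map_zero]; exact H.zero_mem
    | add y z _ _ hy hz => intro r; rw [smul_add, map_add]; exact H.add_mem (hy r) (hz r)
    | smul c y _ hy => intro r; rw [smul_smul]; exact hy (r * c)
  have := key 1
  rwa [one_smul] at this

/-- the real number `φ(e)` -/
noncomputable def evR {M : Type*} [AddCommGroup M] [Module ℚ M] (φ : M →ₗ[ℚ] ℚ) (e : ℝ ⊗[ℚ] M) :
    ℝ := TensorProduct.rid ℚ ℝ (LinearMap.lTensor ℝ φ e)

lemma theta_evR (θ : ℝ →ₗ[ℚ] ℚ) {M : Type*} [AddCommGroup M] [Module ℚ M] (φ : M →ₗ[ℚ] ℚ)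
    (e : ℝ ⊗[ℚ] M) : θ (evR φ e) = φ (contr θ M e) := by
  unfold evR
  induction e using TensorProduct.induction_on with
  | zero => simp
  | tmul r m =>
    rw [LinearMap.lTensor_tmul, TensorProduct.rid_tmul, contr_tmul, map_smul, map_smul,
      smul_eq_mul, smul_eq_mul, mul_comm]
  | add x y hx hy => rw [map_add, map_add, map_add, map_add, map_add, hx, hy]

theorem irr_main {ι : Type*} [Fintype ι] [DecidableEq ι] (p : ι → ℤ[X])
    (hp : ∀ i j, i ≠ j → 0 < (p i - p j).natDegree)
    (δ : LieDerivation ℚ L L) (s : ℕ) (hs : lcsD δ s = ⊥)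
    (e : ℝ ⊗[ℚ] L)
    (he : ∀ φ : L →ₗ[ℚ] ℚ, φ ≠ 0 → (∀ v ∈ lcsD δ 1, φ v = 0) → Irrational (evR φ e))
    (H : Submodule ℚ (ι → L)) (hH : ∀ f ∈ H, ∀ g ∈ H, (fun k => ⁅f k, g k⁆) ∈ H)
    (hE : ∀ (w : L) (n : ℕ), (fun k => expD δ s (((p k).eval (n : ℤ) : ℤ) : ℚ) w) ∈ H)
    (hI : ∀ n : ℕ, (velL p δ s n).baseChange ℝ e ∈ H.baseChange ℝ)
    (i : ι) (k : ℕ) (hk : Fintype.card ι ≤ k + 2) (w : L) (hw : w ∈ lcsD δ k) :
    (Pi.single i w : ι → L) ∈ H := by
  set V : Submodule ℚ L := Submodule.span ℚ {v | ∃ θ : ℝ →ₗ[ℚ] ℚ, θ 1 = 0 ∧ v = contr θ L e}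
    with hV
  refine lie_main p hp δ s hs V ?_ H hH hE ?_ i k hk w hw
  · by_contra hne
    obtain ⟨φ, hφ0, hφ⟩ := Submodule.exists_le_ker_of_lt_top _ (lt_top_iff_ne_top.2 hne)
    have h1 : ∀ v ∈ lcsD δ 1, φ v = 0 := fun v hv => hφ (Submodule.mem_sup_right hv)
    have h2 := he φ hφ0 h1
    have h3 : evR φ e ∉ Submodule.span ℚ ({(1 : ℝ)} : Set ℝ) := by
      intro hmem
      obtain ⟨q, hq⟩ := Submodule.mem_span_singleton.1 hmem
      apply h2
      refine ⟨q, ?_⟩
      rw [← hq, Rat.smul_def, mul_one]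
    obtain ⟨θ, hθ, hθ'⟩ := Submodule.exists_le_ker_of_notMem h3
    have hθ1 : θ 1 = 0 := hθ' (Submodule.mem_span_singleton_self 1)
    rw [theta_evR] at hθ
    exact hθ (hφ (Submodule.mem_sup_left (Submodule.subset_span ⟨θ, hθ1, rfl⟩)))
  · intro v hv n
    have hlin : ∀ v, (fun k => (((derivative (p k)).eval (n : ℤ) : ℤ) : ℚ) •
        expD δ s (((p k).eval (n : ℤ) : ℤ) : ℚ) v) = velL p δ s n v := by
      intro v
      ext k
      rw [velL, LinearMap.pi_apply, LinearMap.smul_apply, expDL_apply]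
    rw [hlin]
    rw [hV] at hv
    induction hv using Submodule.span_induction with
    | mem x hx =>
      obtain ⟨θ, -, rfl⟩ := hx
      rw [← contr_baseChange]
      exact contr_mem θ H (hI n)
    | zero => rw [map_zero]; exact H.zero_mem
    | add x y _ _ hx hy => rw [map_add]; exact H.add_mem hx hy
    | smul c x _ hx => rw [map_smul]; exact H.smul_mem c hx

end Pool.Agent.MPd26.H43
end
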